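import Pool.Agent.Helper73.OB.GoalsA

/-!
Project OB, packet BLK: geometry of blocks.
-/

namespace Pool.Agent.Helper25.OB

open Pool.Agent.Helper73.OB

theorem bit_two (a : Bit) : a + a = 0 := by
  have h : ∀ a : ZMod 2, a + a = 0 := by decide
  exact h a

section

variable {S X : Type} {β : S → S} {p : Bit → S} {δ : Bit} {f : S → X → X} {M : X → Bool}

/-- Splitting of the straight words. -/
theorem uw_add (hu : ∀ k z, uw p δ (k + 1) z = p z :: uw p δ k (z + δ)) (i j : ℕ) (z : Bit) :
    uw p δ (i + j) z = uw p δ i z ++ uw p δ j (z + (i : Bit) * δ) := by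
  induction i generalizing z with
  | zero => simp [uw]
  | succ i ih =>
    rw [show i + 1 + j = (i + j) + 1 by omega, hu, hu, ih]
    simp only [List.cons_append]
    congr 3
    push_cast
    ring

/-- The minimality property of `kfar`. -/
theorem kfar_eq {x : X} {z : Bit} {k : ℕ} (hk : 1 ≤ k) (hM : M (run f (uw p δ k z) x) = true)
    (hmin : ∀ j, 1 ≤ j → j < k → M (run f (uw p δ j z) x) = false) : kfar p δ f M x z = k := by
  unfold kfar
  apply le_antisymm
  · exact Nat.sInf_le ⟨hk, hM⟩
  · by_contra hlt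
    push Not at hlt
    have hne : {k | 1 ≤ k ∧ M (run f (uw p δ k z) x) = true}.Nonempty := ⟨k, hk, hM⟩
    have hmem := Nat.sInf_mem hne
    have := hmin _ hmem.1 hlt
    rw [hmem.2] at this
    exact absurd this (by simp)

theorem kfar_spec {x : X} {z : Bit} (h : ∃ k, 1 ≤ k ∧ M (run f (uw p δ k z) x) = true) :
    1 ≤ kfar p δ f M x z ∧ M (run f (uw p δ (kfar p δ f M x z) z) x) = true ∧
      ∀ j, 1 ≤ j → j < kfar p δ f M x z → M (run f (uw p δ j z) x) = false := by
  have hne : {k | 1 ≤ k ∧ M (run f (uw p δ k z) x) = true}.Nonempty := h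
  have hmem := Nat.sInf_mem hne
  refine ⟨hmem.1, hmem.2, ?_⟩
  intro j hj hlt
  have := Nat.notMem_of_lt_sInf hlt
  by_contra hc
  exact this ⟨hj, by simpa using hc⟩

/-- The far end of `(x, p z)` is the near end of `(f (p z) x, β (p z))`. -/
theorem far_near (hu : ∀ k z, uw p δ (k + 1) z = p z :: uw p δ k (z + δ)) (x : X) (z : Bit)
    (h : ∃ k, 1 ≤ k ∧ M (run f (uw p δ k z) x) = true) :
    pnear p δ f M (f (p z) x) (z + 1 + δ) = pfar p δ f M x z ∧
      snear p δ f M (f (p z) x) (z + 1 + δ) = sfar p δ f M x z ∧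
      knear p δ f M (f (p z) x) (z + 1 + δ) + 1 = kfar p δ f M x z := by
  obtain ⟨h1, h2, h3⟩ := kfar_spec h
  have hrun : ∀ j, run f (uw p δ (j + 1) z) x = run f (uw p δ j (z + δ)) (f (p z) x) := by
    intro j
    rw [hu, run_cons]
  have h0 : ∀ y : X, run f (uw p δ 0 (z + δ)) y = y := by
    intro y
    simp [uw]
  have hz : z + 1 + δ + 1 = z + δ := by
    have := bit_two (1 : Bit)
    linear_combination this
  by_cases hy : M (f (p z) x) = true
  · have hk : kfar p δ f M x z = 1 := by
      apply kfar_eq le_rfl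
      · rw [hrun 0, h0]
        exact hy
      · intro j hj hlt
        omega
    refine ⟨?_, ?_, ?_⟩
    · rw [pnear, if_pos hy, pfar, hk, hrun 0, h0]
    · rw [snear, if_pos hy, sfar, hk]
      simp
    · rw [knear, if_pos hy, hk]
  · have hyf : M (f (p z) x) = false := by simpa using hy
    have hne1 : kfar p δ f M x z ≠ 1 := by
      intro hc
      rw [hc, hrun 0, h0, hyf] at h2
      exact absurd h2 (by simp)
    obtain ⟨m, hm⟩ : ∃ m, kfar p δ f M x z = m + 1 := ⟨kfar p δ f M x z - 1, by omega⟩
    have hm1 : 1 ≤ m := by omega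
    have hky : kfar p δ f M (f (p z) x) (z + δ) = m := by
      apply kfar_eq hm1
      · rw [← hrun, ← hm]
        exact h2
      · intro j hj hlt
        rw [← hrun]
        exact h3 (j + 1) (by omega) (by omega)
    refine ⟨?_, ?_, ?_⟩
    · rw [pnear, if_neg hy, hz, pfar, pfar, hky, hm, hrun]
    · rw [snear, if_neg hy, hz, sfar, sfar, hky, hm]
      push_cast
      ring
    · rw [knear, if_neg hy, hz, hky, hm]

/-- Walking back from the far end, and then on beyond `x`. -/
theorem partner (hβ : ∀ s x, f (β s) (f s x) = x)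
    (hu : ∀ k z, uw p δ (k + 1) z = p z :: uw p δ k (z + δ))
    (hi : ∀ k z, invw β (uw p δ k z) = uw p δ k (z + 1 + (k : Bit) * δ)) (x : X) (z : Bit)
    (h : ∀ z : Bit, ∃ k, 1 ≤ k ∧ M (run f (uw p δ k z) x) = true) :
    pfar p δ f M (pfar p δ f M x z) (sfar p δ f M x z) = pnear p δ f M x z ∧
      sfar p δ f M (pfar p δ f M x z) (sfar p δ f M x z) = snear p δ f M x z := by
  obtain ⟨h1, h2, h3⟩ := kfar_spec (h z)
  obtain ⟨g1, g2, g3⟩ := kfar_spec (h (z + 1))
  set k := kfar p δ f M x z with hk
  set k' := kfar p δ f M x (z + 1) with hk'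
  have hq : pfar p δ f M x z = run f (uw p δ k z) x := rfl
  have ht : sfar p δ f M x z = z + 1 + (k : Bit) * δ := rfl
  have hkk : (k : Bit) * δ + (k : Bit) * δ = 0 := bit_two _
  have h11 : (1 : Bit) + 1 = 0 := bit_two 1
  -- inside the block
  have hback : ∀ i j, i + j = k →
      run f (uw p δ j (sfar p δ f M x z)) (pfar p δ f M x z) = run f (uw p δ i z) x := by
    intro i j hij
    have e1 : uw p δ k z = uw p δ i z ++ uw p δ j (z + (i : Bit) * δ) := by
      rw [← hij]
      exact uw_add hu i j z
    have e2 : sfar p δ f M x z = z + (i : Bit) * δ + 1 + (j : Bit) * δ := by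
      rw [ht, ← hij]
      push_cast
      ring
    rw [hq, e1, run_append, e2, ← hi]
    exact run_invw hβ _ _
  have hbeyond : ∀ i, run f (uw p δ (k + i) (sfar p δ f M x z)) (pfar p δ f M x z) =
      run f (uw p δ i (z + 1)) x := by
    intro i
    rw [uw_add hu, run_append, hback 0 k (by omega)]
    have e3 : sfar p δ f M x z + (k : Bit) * δ = z + 1 := by
      rw [ht]
      linear_combination hkk
    rw [e3]
    congr 1
  have hx : run f (uw p δ k (sfar p δ f M x z)) (pfar p δ f M x z) = x := by
    rw [hback 0 k (by omega)]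
    simp [uw]
  have hinside : ∀ j, 1 ≤ j → j < k →
      M (run f (uw p δ j (sfar p δ f M x z)) (pfar p δ f M x z)) = false := by
    intro j hj hlt
    rw [hback (k - j) j (by omega)]
    exact h3 (k - j) (by omega) (by omega)
  by_cases hM : M x = true
  · have hkq : kfar p δ f M (pfar p δ f M x z) (sfar p δ f M x z) = k := by
      apply kfar_eq h1
      · rw [hx]
        exact hM
      · exact hinside
    refine ⟨?_, ?_⟩
    · rw [pfar, hkq, hx, pnear, if_pos hM]
    · rw [sfar, hkq, ht, snear, if_pos hM]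
      linear_combination hkk + h11
  · have hMf : M x = false := by simpa using hM
    have hkq : kfar p δ f M (pfar p δ f M x z) (sfar p δ f M x z) = k + k' := by
      apply kfar_eq (by omega)
      · rw [hbeyond]
        exact g2
      · intro j hj hlt
        rcases lt_trichotomy j k with hjk | hjk | hjk
        · exact hinside j hj hjk
        · rw [hjk, hx]
          exact hMf
        · obtain ⟨i, rfl⟩ : ∃ i, j = k + i := ⟨j - k, by omega⟩
          rw [hbeyond]
          exact g3 i (by omega) (by omega)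
    refine ⟨?_, ?_⟩
    · rw [pfar, hkq, hbeyond, pnear, if_neg hM]
      rfl
    · rw [sfar, hkq, ht, snear, if_neg hM, sfar, ← hk']
      push_cast
      linear_combination hkk

end

/-- Packet BLK. -/
theorem blk (hUW : S_UW) : S_BLK := by
  intro S X β p δ hFr f hf M x h z
  obtain ⟨-, hu, -, hi, -⟩ := hUW S β p δ hFr
  have h11 : (1 : Bit) + 1 = 0 := bit_two 1
  have hdd : δ + δ = 0 := bit_two δ
  have hzz : z + 1 + 1 = z := by linear_combination h11
  have hz' : z + 1 + δ + 1 + δ = z := by linear_combination h11 + hdd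
  have hyx : f (p (z + 1 + δ)) (f (p z) x) = x := by
    rw [← hFr.bp]
    exact hf _ _
  -- far end of `(y, z')`
  have hex : ∃ k, 1 ≤ k ∧ M (run f (uw p δ k (z + 1 + δ)) (f (p z) x)) = true := by
    obtain ⟨k, hk1, hk⟩ := h (z + 1)
    refine ⟨k + 1, by omega, ?_⟩
    rw [hu, run_cons, hyx]
    have : z + 1 + δ + δ = z + 1 := by linear_combination hdd
    rw [this]
    exact hk
  have hA := far_near hu (f (p z) x) (z + 1 + δ) hex
  rw [hyx, hz'] at hA
  have hB := far_near hu x z (h z)
  have hP := partner hf hu hi x z h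
  have hP' := partner hf hu hi x (z + 1) h
  have hMfar : ∀ t, M (pfar p δ f M x t) = true := fun t => (kfar_spec (h t)).2.1
  refine ⟨⟨hA.1.symm, hA.2.1.symm, hA.2.2.symm, hB.1, hB.2.1, hB.2.2⟩, hMfar z, ?_, hP.1, hP.2,
    ?_, ?_⟩
  · by_cases hM : M x = true
    · rw [pnear, if_pos hM]
      exact hM
    · rw [pnear, if_neg hM]
      exact hMfar _
  · by_cases hM : M x = true
    · rw [pnear, if_pos hM, snear, if_pos hM]
    · have e1 : pnear p δ f M x z = pfar p δ f M x (z + 1) := by rw [pnear, if_neg hM]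
      have e2 : snear p δ f M x z = sfar p δ f M x (z + 1) := by rw [snear, if_neg hM]
      rw [e1, e2, hP'.1, pnear, if_neg hM, hzz]
  · by_cases hM : M x = true
    · rw [pnear, if_pos hM, snear, if_pos hM]
    · have e1 : pnear p δ f M x z = pfar p δ f M x (z + 1) := by rw [pnear, if_neg hM]
      have e2 : snear p δ f M x z = sfar p δ f M x (z + 1) := by rw [snear, if_neg hM]
      rw [e1, e2, hP'.2, snear, if_neg hM, hzz]

end Pool.Agent.Helper25.OB
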