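import Pool.Agent.Helper6.OB.Goals

/-!
# Project OB, packet GRE (greedy sequences)
-/

set_option autoImplicit false

namespace Pool.Agent.Helper25.OB

open Pool.Agent.Helper6.CS

set_option synthInstance.maxSize 1000000000

theorem t_GRE : Pool.Agent.Helper6.OB.G_GRE := by
  classical
  intro hREC M _ P hP hnil h0
  haveI := hP
  have hst : IFn M fun p : M × Wd M =>
      p.2 ++ Wd.sg (if P (p.2 ++ Wd.sg 1) then (1 : M) else 0) := inferInstance
  obtain ⟨F, hF, hF0, hF1⟩ := hREC M (Wd.nil M) _ hst
  haveI := hF
  simp only at hF1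
  have hlen : ∀ j, (F j).len = j := by
    refine ind (P := fun j => (F j).len = j) inferInstance ?_ ?_
    · rw [hF0]
      exact Wd.len_nil
    · intro n hn
      rw [hF1, Wd.len_append, Wd.len_sg, hn]
  have hPF : ∀ j, P (F j) := by
    refine ind (P := fun j => P (F j)) (IP.comp hP hF) ?_ ?_
    · rw [hF0]
      exact hnil
    · intro n hn
      rw [hF1]
      split_ifs with h
      · exact h
      · exact h0 _ hn
  have hS : IFn M fun j : M => (F (j + 1)).get j := inferInstance
  have hget : ∀ j, ∀ i, i < j → (F j).get i = (F (i + 1)).get i := by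
    refine ind (P := fun j => ∀ i, i < j → (F j).get i = (F (i + 1)).get i) inferInstance ?_ ?_
    · intro i hi
      exact absurd hi (not_lt.2 (World.zero_le' i))
    · intro n hn i hi
      rw [World.lt_succ] at hi
      rcases lt_or_eq_of_le hi with h | h
      · rw [hF1 n, Wd.get_append_left _ _ (by rwa [hlen])]
        exact hn i h
      · rw [h]
  have hof : ∀ j, Wd.of j (fun j : M => (F (j + 1)).get j) = F j := by
    intro j
    refine Wd.ext' (by rw [Wd.len_of, hlen]) fun i hi => ?_
    rw [Wd.len_of] at hi
    rw [Wd.get_of_lt _ _ hi]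
    exact (hget j i hi).symm
  refine ⟨fun j => (F (j + 1)).get j, hS, fun j => ?_, fun j hj => ?_⟩
  · rw [hof]
    exact hPF j
  · rw [hof]
    intro h
    refine hj ?_
    simp only
    rw [hF1, if_pos h]
    have h2 := Wd.get_append_right (F j) (Wd.sg (1 : M)) 0
    rw [hlen, add_zero, Wd.get_sg_zero] at h2
    exact h2

end Pool.Agent.Helper25.OB
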